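import Pool.Agent.FFS.Vol
import Pool.Agent.FF.Final

/-!
# The number of faces of the cube met by a subspace of codimension `k`

A subspace `L` of `ℝ ^ n` of codimension `k` meets at least `3 ^ (n - k) / 14 ^ k` relatively open faces of the cube.
-/

set_option autoImplicit false

open scoped BigOperators RealInnerProductSpace Classical Pointwise
open MeasureTheory Module Pool.Agent.GRD

namespace Pool.Agent.FFS

noncomputable section

/-- the vector of the signs of `g` -/
def sv {n : ℕ} (g : Fin n → ZMod 3) : Fin n → ℝ := fun i => sg (g i)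

/-- the points of the projection of the open face `g` -/
def Sg {n k : ℕ} (π : (Fin n → ℝ) →ₗ[ℝ] (Fin k → ℝ)) (g : Fin n → ZMod 3) : Set (Fin k → ℝ) :=
  (fun u => u + -(π (sv g))) ⁻¹' interior (Zb π (fun i => zf (g i)))

theorem Sg_meas {n k : ℕ} (π : (Fin n → ℝ) →ₗ[ℝ] (Fin k → ℝ)) (g : Fin n → ZMod 3) :
    MeasurableSet (Sg π g) :=
  (isOpen_interior.preimage (continuous_add_const _)).measurableSet

theorem Sg_vol {n k : ℕ} (π : (Fin n → ℝ) →ₗ[ℝ] (Fin k → ℝ)) (g : Fin n → ZMod 3) :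
    volume (Sg π g) = volume (Zb π (fun i => zf (g i))) := by
  unfold Sg
  rw [measure_preimage_add_right]
  exact measure_congr (interior_ae_eq_of_null_frontier ((Zb_convex π _).addHaar_frontier volume))

/-- a point of the projection of the open face lifts to the open face -/
theorem Sg_lift {n k : ℕ} (π : (Fin n → ℝ) →ₗ[ℝ] (Fin k → ℝ)) (g : Fin n → ZMod 3) {u : Fin k → ℝ}
    (hu : u ∈ Sg π g) : ∃ y : Fin n → ℝ, Cell g y ∧ π y = u := by
  have h1 : u + -(π (sv g)) ∈ interior (Zb π (fun i => zf (g i))) := hu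
  have hcont : Continuous (fun c : ℝ => c • (u + -(π (sv g)))) := by fun_prop
  have hopen : IsOpen ((fun c : ℝ => c • (u + -(π (sv g)))) ⁻¹'
      interior (Zb π (fun i => zf (g i)))) := isOpen_interior.preimage hcont
  have hone : (1 : ℝ) ∈ (fun c : ℝ => c • (u + -(π (sv g)))) ⁻¹'
      interior (Zb π (fun i => zf (g i))) := by
    show (1 : ℝ) • (u + -(π (sv g))) ∈ interior (Zb π (fun i => zf (g i)))
    rw [one_smul]
    exact h1
  obtain ⟨ε, hε, hb⟩ := Metric.isOpen_iff.1 hopen 1 hone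
  have hc : (1 + ε / 2 : ℝ) ∈ Metric.ball (1 : ℝ) ε := by
    rw [Metric.mem_ball, Real.dist_eq]
    have : (1 + ε / 2 - 1 : ℝ) = ε / 2 := by ring
    rw [this, abs_of_pos (by linarith)]
    linarith
  have h2 : (1 + ε / 2 : ℝ) • (u + -(π (sv g))) ∈ Zb π (fun i => zf (g i)) :=
    interior_subset (hb hc)
  obtain ⟨z, hz, hw⟩ := mem_Zb.1 h2
  set c : ℝ := 1 + ε / 2 with hcdef
  have c1 : 1 < c := by linarith
  have c0 : 0 < c := by linarith
  refine ⟨sv g + c⁻¹ • Dm (fun i => zf (g i)) z, ?_, ?_⟩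
  · intro i
    constructor
    · intro h0
      rw [Pi.add_apply, Pi.smul_apply, Dm_apply, sv, h0, sg_zero, zf_zero, zero_add, one_mul,
        smul_eq_mul, abs_mul, abs_of_pos (inv_pos.2 c0)]
      calc c⁻¹ * |z i| ≤ c⁻¹ * 1 := mul_le_mul_of_nonneg_left (hz i) (inv_pos.2 c0).le
        _ < 1 := by rw [mul_one]; exact inv_lt_one_of_one_lt₀ c1
    · intro h0
      rw [Pi.add_apply, Pi.smul_apply, Dm_apply, zf_ne h0, zero_mul, smul_zero, add_zero]
      rfl
  · rw [map_add, map_smul, hw, smul_smul, inv_mul_cancel₀ c0.ne', one_smul]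
    abel

theorem Sg_sub {n k : ℕ} (π : (Fin n → ℝ) →ₗ[ℝ] (Fin k → ℝ)) (g : Fin n → ZMod 3) :
    Sg π g ⊆ Zb π (fun _ => 1) := by
  intro u hu
  obtain ⟨y, hy, rfl⟩ := Sg_lift π g hu
  refine mem_Zb.2 ⟨y, fun i => hy.abs_le i, ?_⟩
  have : Dm (fun _ => 1) y = y := by
    funext i
    rw [Dm_apply, one_mul]
  rw [this]

/-- the volume of the projection of the cube is positive -/
theorem Vb_pos {n k : ℕ} (π : (Fin n → ℝ) →ₗ[ℝ] (Fin k → ℝ)) (hπ : Function.Surjective π) :
    0 < volume (Zb π (fun _ => 1)) := by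
  have ho : IsOpen (π '' (Set.pi Set.univ (fun _ : Fin n => Set.Ioo (-1 : ℝ) 1))) :=
    π.isOpenMap_of_finiteDimensional hπ _ (isOpen_set_pi Set.finite_univ (fun _ _ => isOpen_Ioo))
  have hne : (π '' (Set.pi Set.univ (fun _ : Fin n => Set.Ioo (-1 : ℝ) 1))).Nonempty := by
    refine Set.Nonempty.image _ ⟨0, ?_⟩
    rw [Set.mem_univ_pi]
    intro i
    show (0 : ℝ) ∈ Set.Ioo (-1 : ℝ) 1
    norm_num
  refine lt_of_lt_of_le (ho.measure_pos volume hne) (measure_mono ?_)
  rintro _ ⟨z, hz, rfl⟩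
  rw [Set.mem_univ_pi] at hz
  refine mem_Zb.2 ⟨z, fun i => abs_le.2 ⟨(hz i).1.le, (hz i).2.le⟩, ?_⟩
  have : Dm (fun _ => 1) z = z := by
    funext i
    rw [Dm_apply, one_mul]
  rw [this]

theorem Vb_const {n k : ℕ} (π : (Fin n → ℝ) →ₗ[ℝ] (Fin k → ℝ)) :
    Vb π (fun _ => 17 / 110) = (17 / 110) ^ k * Vb π (fun _ => 1) := by
  have h : Zb π (fun _ => 17 / 110) = (17 / 110 : ℝ) • Zb π (fun _ => 1) := by
    ext w
    rw [Set.mem_smul_set, mem_Zb]
    constructor
    · rintro ⟨z, hz, rfl⟩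
      refine ⟨π (Dm (fun _ => 1) z), mem_Zb.2 ⟨z, hz, rfl⟩, ?_⟩
      rw [← map_smul]
      congr 1
      funext i
      rw [Pi.smul_apply, Dm_apply, Dm_apply, smul_eq_mul, one_mul]
    · rintro ⟨y, hy, rfl⟩
      obtain ⟨z, hz, rfl⟩ := mem_Zb.1 hy
      refine ⟨z, hz, ?_⟩
      rw [← map_smul]
      congr 1
      funext i
      rw [Pi.smul_apply, Dm_apply, Dm_apply, smul_eq_mul, one_mul]
  unfold Vb
  rw [h, Measure.addHaar_smul, ENNReal.toReal_mul, finrank_fin_fun,
    abs_of_nonneg (by positivity), ENNReal.toReal_ofReal (by positivity)]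

/-- a slice of the cube that meets many faces -/
theorem exists_slice {n k : ℕ} (π : (Fin n → ℝ) →ₗ[ℝ] (Fin k → ℝ)) (hπ : Function.Surjective π) :
    ∃ u : Fin k → ℝ, (17 / 110 : ℝ) ^ k ≤
      wt (Finset.univ.filter (fun g : Fin n → ZMod 3 => u ∈ Sg π g)) := by
  set Z : Set (Fin k → ℝ) := Zb π (fun _ => 1) with hZ
  have hZc : IsCompact Z := Zb_compact π _
  have hZm : MeasurableSet Z := hZc.measurableSet
  have h0 : volume Z ≠ 0 := (Vb_pos π hπ).ne'
  have h1 : volume Z ≠ ⊤ := hZc.measure_lt_top.ne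
  have hpos : 0 < (volume Z).toReal := ENNReal.toReal_pos h0 h1
  set H : (Fin k → ℝ) → ℝ := fun u =>
    ∑ g : Fin n → ZMod 3, (Sg π g).indicator (fun _ => ∏ i, nu (g i)) u with hH
  have hint : ∀ g : Fin n → ZMod 3,
      IntegrableOn ((Sg π g).indicator (fun _ => ∏ i, nu (g i))) Z volume := by
    intro g
    exact (integrableOn_const h1).indicator (Sg_meas π g)
  have hHint : IntegrableOn H Z volume := integrable_finsetSum _ (fun g _ => hint g)
  have hval : ∫ u in Z, H u = (17 / 110) ^ k * (volume Z).toReal := by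
    rw [hH]
    rw [integral_finsetSum _ (fun g _ => hint g)]
    have e : ∀ g : Fin n → ZMod 3,
        ∫ u in Z, (Sg π g).indicator (fun _ => ∏ i, nu (g i)) u =
          (∏ i, nu (g i)) * Vb π (fun i => zf (g i)) := by
      intro g
      rw [setIntegral_indicator (Sg_meas π g), Set.inter_eq_self_of_subset_right (Sg_sub π g),
        setIntegral_const, Measure.real, Sg_vol, smul_eq_mul, mul_comm]
      rfl
    rw [Finset.sum_congr rfl (fun g _ => e g), expand n (Vb π) (Vb_aff π), Vb_const]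
    rfl
  obtain ⟨u, _, hu⟩ := exists_setAverage_le h0 h1 hHint
  refine ⟨u, ?_⟩
  rw [setAverage_eq, hval, smul_eq_mul, Measure.real] at hu
  have e1 : (volume Z).toReal⁻¹ * ((17 / 110) ^ k * (volume Z).toReal) = (17 / 110) ^ k := by
    field_simp
  rw [e1] at hu
  refine hu.trans (le_of_eq ?_)
  rw [hH, wt, Finset.sum_filter]
  refine Finset.sum_congr rfl (fun g _ => ?_)
  rw [Set.indicator_apply]

theorem sg_dd (a b : ZMod 3) (h : dd a b ≠ 0) : (sg a - sg b) / 2 = sg (dd a b) ∧ a ≠ 0 ∧ b ≠ 0 := by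
  have e : dd a b = a := by
    unfold dd at h ⊢
    split_ifs with h1
    · rw [if_pos h1] at h
      exact absurd rfl h
    · rfl
  have h2 : ¬ (a = b ∨ a = 0 ∨ b = 0) := by
    intro h1
    exact h (by rw [dd, if_pos h1])
  push Not at h2
  rw [e]
  refine ⟨?_, h2.2.1, h2.2.2⟩
  rcases zmod3_cases a with rfl | rfl | rfl
  · exact absurd rfl h2.2.1
  · rcases zmod3_cases b with rfl | rfl | rfl
    · exact absurd rfl h2.2.2
    · exact absurd rfl h2.1
    · rw [sg_one, sg_two]; norm_num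
  · rcases zmod3_cases b with rfl | rfl | rfl
    · exact absurd rfl h2.2.2
    · rw [sg_one, sg_two]; norm_num
    · exact absurd rfl h2.1

theorem cell_dd {n : ℕ} {g g' : Fin n → ZMod 3} {y y' : Fin n → ℝ} (hy : Cell g y)
    (hy' : Cell g' y') : Cell (fun j => dd (g j) (g' j)) ((1 / 2 : ℝ) • (y - y')) := by
  intro i
  show (dd (g i) (g' i) = 0 → |(1 / 2 : ℝ) * (y i - y' i)| < 1) ∧
    (dd (g i) (g' i) ≠ 0 → (1 / 2 : ℝ) * (y i - y' i) = sg (dd (g i) (g' i)))
  constructor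
  · intro h
    have a1 := abs_le.1 (hy.abs_le i)
    have a2 := abs_le.1 (hy'.abs_le i)
    by_cases g0 : g i = 0
    · have b := abs_lt.1 ((hy i).1 g0)
      rw [abs_lt]
      constructor <;> linarith
    · by_cases g1 : g' i = 0
      · have b := abs_lt.1 ((hy' i).1 g1)
        rw [abs_lt]
        constructor <;> linarith
      · have e : g i = g' i := by
          by_contra hne
          have : dd (g i) (g' i) = g i := by
            rw [dd, if_neg]
            rintro (h1 | h1 | h1)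
            · exact hne h1
            · exact g0 h1
            · exact g1 h1
          rw [this] at h
          exact g0 h
        rw [(hy i).2 g0, (hy' i).2 g1, e, sub_self, mul_zero, abs_zero]
        exact one_pos
  · intro h
    obtain ⟨h1, h2, h3⟩ := sg_dd _ _ h
    rw [(hy i).2 h2, (hy' i).2 h3, ← h1]
    ring

/-- a subspace of codimension `k` meets many open faces of the cube -/
theorem nl_sharp {n : ℕ} (L : Submodule ℝ (Fin n → ℝ)) {k : ℕ} (hk : finrank ℝ L + k = n) :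
    3 ^ finrank ℝ L ≤ NL L * 14 ^ k := by
  have hq : finrank ℝ ((Fin n → ℝ) ⧸ L) = finrank ℝ (Fin k → ℝ) := by
    have h := Submodule.finrank_quotient_add_finrank L
    rw [finrank_fin_fun] at h ⊢
    omega
  set e : ((Fin n → ℝ) ⧸ L) ≃ₗ[ℝ] (Fin k → ℝ) := LinearEquiv.ofFinrankEq _ _ hq with he
  set π : (Fin n → ℝ) →ₗ[ℝ] (Fin k → ℝ) := e.toLinearMap ∘ₗ L.mkQ with hπdef
  have hπ : Function.Surjective π := e.surjective.comp (Submodule.mkQ_surjective L)
  have hker : ∀ x, π x = 0 → x ∈ L := by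
    intro x hx
    have h1 : e (L.mkQ x) = 0 := hx
    have h2 : L.mkQ x = 0 := (LinearEquiv.map_eq_zero_iff e).1 h1
    exact (Submodule.Quotient.mk_eq_zero L).1 h2
  obtain ⟨u, hu⟩ := exists_slice π hπ
  set A := Finset.univ.filter (fun g : Fin n → ZMod 3 => u ∈ Sg π g) with hA
  have h1 := card_DD n A A
  have hall : ∀ (inst : Fintype (Fin n → ZMod 3)) (t : Fin n → ZMod 3),
      t ∈ @Finset.univ _ inst := fun inst t => @Finset.mem_univ _ inst t
  have h2 : (DD A A).card ≤ NL L := by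
    unfold NL
    refine Finset.card_le_card ?_
    intro t ht
    unfold DD at ht
    rw [Finset.mem_image₂] at ht
    obtain ⟨g, hg, g', hg', rfl⟩ := ht
    rw [hA, Finset.mem_filter] at hg hg'
    obtain ⟨y, hy, ey⟩ := Sg_lift π g hg.2
    obtain ⟨y', hy', ey'⟩ := Sg_lift π g' hg'.2
    rw [Finset.mem_filter]
    refine ⟨hall _ _, (1 / 2 : ℝ) • (y - y'), ?_, cell_dd hy hy'⟩
    apply hker
    rw [map_smul, map_sub, ey, ey', sub_self, smul_zero]
  have h3 : (3 : ℝ) ^ n * (((17 / 110 : ℝ) ^ k) * ((17 / 110 : ℝ) ^ k)) ≤ (NL L : ℝ) := by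
    refine le_trans ?_ (h1.trans (by exact_mod_cast h2))
    refine mul_le_mul_of_nonneg_left ?_ (by positivity)
    exact mul_le_mul hu hu (by positivity) (wt_nonneg A)
  have h4 : ((3 : ℝ) ^ finrank ℝ L) ≤ (NL L : ℝ) * 14 ^ k := by
    have e1 : (3 : ℝ) ^ n = 3 ^ finrank ℝ L * 3 ^ k := by
      rw [← pow_add, hk]
    have e2 : (1 : ℝ) ≤ (3 * (17 / 110) * (17 / 110) * 14) ^ k := one_le_pow₀ (by norm_num)
    calc ((3 : ℝ) ^ finrank ℝ L) = 3 ^ finrank ℝ L * 1 := by ring
      _ ≤ 3 ^ finrank ℝ L * (3 * (17 / 110) * (17 / 110) * 14) ^ k :=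
        mul_le_mul_of_nonneg_left e2 (by positivity)
      _ = (3 ^ n * (((17 / 110 : ℝ) ^ k) * ((17 / 110 : ℝ) ^ k))) * 14 ^ k := by
        rw [e1, mul_pow, mul_pow, mul_pow]
        ring
      _ ≤ _ := mul_le_mul_of_nonneg_right h3 (by positivity)
  exact_mod_cast h4

/-- the number of faces of a centrally symmetric polytope with `n` pairs of facets or vertices -/
theorem final_sharp {d n : ℕ} (a : Fin n → E d) (P : Set (E d))
    (hP : (P = {x | ∀ i, |⟪a i, x⟫| ≤ 1} ∧ Bornology.IsBounded P) ∨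
      (P = convexHull ℝ (Set.range a ∪ Set.range (fun i => -a i)) ∧ (interior P).Nonempty)) :
    d ≤ n ∧ (3 : ℕ∞) ^ d ≤
      14 ^ (n - d) * {F : Set (E d) | F.Nonempty ∧ IsExposed ℝ P F}.encard := by
  obtain ⟨h1, h2, h3⟩ := Pool.Agent.FF.both a P hP
  refine ⟨h2, ?_⟩
  have h4 := nl_sharp (LinearMap.range (TT a)) (k := n - d) (by rw [h1]; omega)
  rw [h1] at h4
  have h5 : (3 : ℕ∞) ^ d ≤ (NL (LinearMap.range (TT a)) : ℕ∞) * 14 ^ (n - d) := by
    exact_mod_cast h4
  refine h5.trans ?_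
  rw [mul_comm]
  gcongr

end

end Pool.Agent.FFS
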