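import Pool.Agent.GRD.Core

/-!
# A product inequality for half differences of sign vectors

For sets `A`, `B` of vectors with entries in `{0, 1, -1}` the set of the vectors `dd g g'` (`1` where `g = 1`, `g' = -1`, `-1` where
`g = -1`, `g' = 1`, and `0` elsewhere) has at least `3 ^ n * nu A * nu B` elements, where `nu` is a product measure.
-/

set_option autoImplicit false

open scoped BigOperators Classical

namespace Pool.Agent.FFS

noncomputable section

/-- the weight of a sign -/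
def nu (c : ZMod 3) : ℝ := if c = 0 then 17 / 110 else 93 / 220

/-- the half difference of two signs -/
def dd (a b : ZMod 3) : ZMod 3 := if a = b ∨ a = 0 ∨ b = 0 then 0 else a

/-- the weight of a set of sign vectors -/
def wt {n : ℕ} (A : Finset (Fin n → ZMod 3)) : ℝ := ∑ g ∈ A, ∏ i, nu (g i)

/-- the set of the half differences -/
def DD {n : ℕ} (A B : Finset (Fin n → ZMod 3)) : Finset (Fin n → ZMod 3) :=
  Finset.image₂ (fun v w j => dd (v j) (w j)) A B

theorem nu_zero : nu 0 = 17 / 110 := by simp [nu]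

theorem nu_one : nu 1 = 93 / 220 := by
  have h : (1 : ZMod 3) ≠ 0 := by decide
  simp [nu, h]

theorem nu_two : nu 2 = 93 / 220 := by
  have h : (2 : ZMod 3) ≠ 0 := by decide
  simp [nu, h]

theorem nu_pos (c : ZMod 3) : 0 < nu c := by
  unfold nu
  split_ifs <;> norm_num

theorem wt_nonneg {n : ℕ} (A : Finset (Fin n → ZMod 3)) : 0 ≤ wt A :=
  Finset.sum_nonneg (fun _ _ => Finset.prod_nonneg (fun _ _ => (nu_pos _).le))

/-! ### the three point inequality -/

/-- the case of a maximal pair of equal or vanishing signs -/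
theorem case_one (α β a1 a2 b1 b2 M : ℝ) (a1n : 0 ≤ a1) (a2n : 0 ≤ a2) (b1n : 0 ≤ b1) (b2n : 0 ≤ b2)
    (h1 : a1 ≤ α) (h2 : a2 ≤ α) (h3 : b1 ≤ β) (h4 : b2 ≤ β) (hM : α * β ≤ M) :
    3 * (17 / 110 * α + 93 / 220 * a1 + 93 / 220 * a2) * (17 / 110 * β + 93 / 220 * b1 + 93 / 220 * b2)
      ≤ M + a1 * b2 + a2 * b1 := by
  set q : ℝ := 17 / 110 * β + 93 / 220 * b1 + 93 / 220 * b2 with hq
  have hα : 0 ≤ α := a1n.trans h1
  have k1 : min 0 (α * (b2 - 279 / 220 * q)) ≤ a1 * (b2 - 279 / 220 * q) := by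
    rcases le_total 0 (b2 - 279 / 220 * q) with h | h
    · exact (min_le_left _ _).trans (mul_nonneg a1n h)
    · exact (min_le_right _ _).trans (mul_le_mul_of_nonpos_right h1 h)
  have k2 : min 0 (α * (b1 - 279 / 220 * q)) ≤ a2 * (b1 - 279 / 220 * q) := by
    rcases le_total 0 (b1 - 279 / 220 * q) with h | h
    · exact (min_le_left _ _).trans (mul_nonneg a2n h)
    · exact (min_le_right _ _).trans (mul_le_mul_of_nonpos_right h2 h)
  have k3 : 0 ≤ α * (β - 51 / 110 * q) + min 0 (α * (b2 - 279 / 220 * q)) +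
      min 0 (α * (b1 - 279 / 220 * q)) := by
    rcases min_choice 0 (α * (b2 - 279 / 220 * q)) with e1 | e1 <;>
      rcases min_choice 0 (α * (b1 - 279 / 220 * q)) with e2 | e2 <;> rw [e1, e2]
    · have : 0 ≤ β - 51 / 110 * q := by rw [hq]; linarith
      have := mul_nonneg hα this
      linarith
    · have : 0 ≤ β - 51 / 110 * q + (b1 - 279 / 220 * q) := by rw [hq]; linarith
      have := mul_nonneg hα this
      linarith
    · have : 0 ≤ β - 51 / 110 * q + (b2 - 279 / 220 * q) := by rw [hq]; linarith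
      have := mul_nonneg hα this
      linarith
    · have : 0 ≤ β - 51 / 110 * q + (b2 - 279 / 220 * q) + (b1 - 279 / 220 * q) := by
        rw [hq]; linarith
      have := mul_nonneg hα this
      linarith
  have k4 : M + a1 * b2 + a2 * b1 - 3 * (17 / 110 * α + 93 / 220 * a1 + 93 / 220 * a2) * q =
      (M - α * β) + (α * (β - 51 / 110 * q) + a1 * (b2 - 279 / 220 * q) +
        a2 * (b1 - 279 / 220 * q)) := by ring
  linarith

/-- the case of a maximal pair of opposite signs -/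
theorem case_two (p q y w X Z M : ℝ) (yn : 0 ≤ y) (wn : 0 ≤ w) (hy : y ≤ X) (hw : w ≤ Z)
    (hX : X ≤ p) (hZ : Z ≤ q) (h1 : X * q ≤ M) (h2 : p * Z ≤ M) :
    3 * (17 / 110 * X + 93 / 220 * p + 93 / 220 * y) * (17 / 110 * Z + 93 / 220 * w + 93 / 220 * q)
      ≤ M + p * q + y * w := by
  have e1 := mul_nonneg yn wn
  have e2 := mul_nonneg yn (sub_nonneg.2 hw)
  have e3 := mul_nonneg yn (sub_nonneg.2 hZ)
  have e4 := mul_nonneg (sub_nonneg.2 hy) wn
  have e5 := mul_nonneg (sub_nonneg.2 hy) (sub_nonneg.2 hw)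
  have e6 := mul_nonneg (sub_nonneg.2 hy) (sub_nonneg.2 hZ)
  have e7 := mul_nonneg (sub_nonneg.2 hX) wn
  have e8 := mul_nonneg (sub_nonneg.2 hX) (sub_nonneg.2 hw)
  have e9 := mul_nonneg (sub_nonneg.2 hX) (sub_nonneg.2 hZ)
  nlinarith

/-- the three point inequality -/
theorem three (a0 a1 a2 b0 b1 b2 M : ℝ) (a0n : 0 ≤ a0) (a1n : 0 ≤ a1) (a2n : 0 ≤ a2)
    (b0n : 0 ≤ b0) (b1n : 0 ≤ b1) (b2n : 0 ≤ b2)
    (h00 : a0 * b0 ≤ M) (h01 : a0 * b1 ≤ M) (h02 : a0 * b2 ≤ M) (h10 : a1 * b0 ≤ M)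
    (h20 : a2 * b0 ≤ M) (h11 : a1 * b1 ≤ M) (h22 : a2 * b2 ≤ M) :
    3 * (17 / 110 * a0 + 93 / 220 * a1 + 93 / 220 * a2) *
      (17 / 110 * b0 + 93 / 220 * b1 + 93 / 220 * b2) ≤ M + a1 * b2 + a2 * b1 := by
  set α := max a0 (max a1 a2) with hα
  set β := max b0 (max b1 b2) with hβ
  have A0 : a0 ≤ α := le_max_left _ _
  have A1 : a1 ≤ α := (le_max_left _ _).trans (le_max_right _ _)
  have A2 : a2 ≤ α := (le_max_right _ _).trans (le_max_right _ _)
  have B0 : b0 ≤ β := le_max_left _ _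
  have B1 : b1 ≤ β := (le_max_left _ _).trans (le_max_right _ _)
  have B2 : b2 ≤ β := (le_max_right _ _).trans (le_max_right _ _)
  have cA : α = a0 ∨ α = a1 ∨ α = a2 := by
    rcases max_choice a0 (max a1 a2) with h | h
    · exact Or.inl h
    · rcases max_choice a1 a2 with h' | h'
      · exact Or.inr (Or.inl (h.trans h'))
      · exact Or.inr (Or.inr (h.trans h'))
  have cB : β = b0 ∨ β = b1 ∨ β = b2 := by
    rcases max_choice b0 (max b1 b2) with h | h
    · exact Or.inl h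
    · rcases max_choice b1 b2 with h' | h'
      · exact Or.inr (Or.inl (h.trans h'))
      · exact Or.inr (Or.inr (h.trans h'))
  have one : α * β ≤ M → 3 * (17 / 110 * a0 + 93 / 220 * a1 + 93 / 220 * a2) *
      (17 / 110 * b0 + 93 / 220 * b1 + 93 / 220 * b2) ≤ M + a1 * b2 + a2 * b1 := by
    intro hM
    refine le_trans ?_ (case_one α β a1 a2 b1 b2 M a1n a2n b1n b2n A1 A2 B1 B2 hM)
    have s1 : 17 / 110 * a0 + 93 / 220 * a1 + 93 / 220 * a2 ≤
        17 / 110 * α + 93 / 220 * a1 + 93 / 220 * a2 := by linarith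
    have s2 : 17 / 110 * b0 + 93 / 220 * b1 + 93 / 220 * b2 ≤
        17 / 110 * β + 93 / 220 * b1 + 93 / 220 * b2 := by linarith
    have s3 : 0 ≤ 17 / 110 * b0 + 93 / 220 * b1 + 93 / 220 * b2 := by positivity
    have s4 : 0 ≤ 17 / 110 * α + 93 / 220 * a1 + 93 / 220 * a2 := by linarith
    exact mul_le_mul (by linarith) s2 s3 (by linarith)
  rcases cA with c | c | c <;> rcases cB with c' | c' | c'
  · exact one (by rw [c, c']; exact h00)
  · exact one (by rw [c, c']; exact h01)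
  · exact one (by rw [c, c']; exact h02)
  · exact one (by rw [c, c']; exact h10)
  · exact one (by rw [c, c']; exact h11)
  · -- opposite signs `a1`, `b2`
    have X1 : max a0 a2 ≤ a1 := max_le (c ▸ A0) (c ▸ A2)
    have Z1 : max b0 b1 ≤ b2 := max_le (c' ▸ B0) (c' ▸ B1)
    have X2 : max a0 a2 * b2 ≤ M := by
      rcases max_choice a0 a2 with h | h <;> rw [h]
      · exact h02
      · exact h22
    have Z2 : a1 * max b0 b1 ≤ M := by
      rcases max_choice b0 b1 with h | h <;> rw [h]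
      · exact h10
      · exact h11
    have h := case_two a1 b2 a2 b1 (max a0 a2) (max b0 b1) M a2n b1n (le_max_right _ _)
      (le_max_right _ _) X1 Z1 X2 Z2
    refine le_trans ?_ h
    have s1 : a0 ≤ max a0 a2 := le_max_left _ _
    have s2 : b0 ≤ max b0 b1 := le_max_left _ _
    exact mul_le_mul (by linarith) (by linarith) (by positivity) (by linarith)
  · exact one (by rw [c, c']; exact h20)
  · have X1 : max a0 a1 ≤ a2 := max_le (c ▸ A0) (c ▸ A1)
    have Z1 : max b0 b2 ≤ b1 := max_le (c' ▸ B0) (c' ▸ B2)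
    have X2 : max a0 a1 * b1 ≤ M := by
      rcases max_choice a0 a1 with h | h <;> rw [h]
      · exact h01
      · exact h11
    have Z2 : a2 * max b0 b2 ≤ M := by
      rcases max_choice b0 b2 with h | h <;> rw [h]
      · exact h20
      · exact h22
    have h := case_two a2 b1 a1 b2 (max a0 a1) (max b0 b2) M a1n b2n (le_max_right _ _)
      (le_max_right _ _) X1 Z1 X2 Z2
    have h' : 3 * (17 / 110 * a0 + 93 / 220 * a1 + 93 / 220 * a2) *
      (17 / 110 * b0 + 93 / 220 * b1 + 93 / 220 * b2) ≤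
      3 * (17 / 110 * max a0 a1 + 93 / 220 * a2 + 93 / 220 * a1) *
      (17 / 110 * max b0 b2 + 93 / 220 * b2 + 93 / 220 * b1) := by
      have s1 : a0 ≤ max a0 a1 := le_max_left _ _
      have s2 : b0 ≤ max b0 b2 := le_max_left _ _
      exact mul_le_mul (by linarith) (by linarith) (by positivity) (by linarith)
    linarith
  · exact one (by rw [c, c']; exact h22)

/-! ### tensorization -/

/-- the fibre over the first coordinate `c` -/
def sl {n : ℕ} (S : Finset (Fin (n + 1) → ZMod 3)) (c : ZMod 3) : Finset (Fin n → ZMod 3) :=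
  Finset.univ.filter (fun t => (Fin.cons c t : Fin (n + 1) → ZMod 3) ∈ S)

theorem mem_sl {n : ℕ} {S : Finset (Fin (n + 1) → ZMod 3)} {c : ZMod 3} {t : Fin n → ZMod 3} :
    t ∈ sl S c ↔ (Fin.cons c t : Fin (n + 1) → ZMod 3) ∈ S := by
  unfold sl
  rw [Finset.mem_filter]
  exact ⟨fun h => h.2, fun h => ⟨Finset.mem_univ _, h⟩⟩

theorem sum_sl {n : ℕ} (S : Finset (Fin (n + 1) → ZMod 3)) (f : (Fin (n + 1) → ZMod 3) → ℝ) :
    ∑ g ∈ S, f g = ∑ c : ZMod 3, ∑ t ∈ sl S c, f (Fin.cons c t : Fin (n + 1) → ZMod 3) := by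
  rw [← Finset.sum_fiberwise_of_maps_to (g := fun g : Fin (n + 1) → ZMod 3 => g 0)
    (t := Finset.univ) (fun _ _ => Finset.mem_univ _)]
  refine Finset.sum_congr rfl fun c _ => ?_
  refine Finset.sum_bij' (fun g _ => Fin.tail g) (fun t _ => (Fin.cons c t : Fin (n + 1) → ZMod 3))
    ?_ ?_ ?_ ?_ ?_
  · intro g hg
    rw [Finset.mem_filter] at hg
    rw [mem_sl, ← hg.2, Fin.cons_self_tail]
    exact hg.1
  · intro t ht
    rw [mem_sl] at ht
    rw [Finset.mem_filter]
    exact ⟨ht, Fin.cons_zero _ _⟩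
  · intro g hg
    rw [Finset.mem_filter] at hg
    show (Fin.cons c (Fin.tail g) : Fin (n + 1) → ZMod 3) = g
    rw [← hg.2, Fin.cons_self_tail]
  · intro t ht
    exact Fin.tail_cons _ _
  · intro g hg
    rw [Finset.mem_filter] at hg
    show f g = f (Fin.cons c (Fin.tail g) : Fin (n + 1) → ZMod 3)
    rw [← hg.2, Fin.cons_self_tail]

theorem sum3 (f : ZMod 3 → ℝ) : ∑ c, f c = f 0 + f 1 + f 2 := Fin.sum_univ_three f

theorem wt_sl {n : ℕ} (S : Finset (Fin (n + 1) → ZMod 3)) :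
    wt S = 17 / 110 * wt (sl S 0) + 93 / 220 * wt (sl S 1) + 93 / 220 * wt (sl S 2) := by
  have h : ∀ c : ZMod 3, ∑ t ∈ sl S c, ∏ i, nu ((Fin.cons c t : Fin (n + 1) → ZMod 3) i)
      = nu c * wt (sl S c) := by
    intro c
    rw [wt, Finset.mul_sum]
    refine Finset.sum_congr rfl fun t _ => ?_
    rw [Fin.prod_univ_succ]
    simp only [Fin.cons_zero, Fin.cons_succ]
  rw [wt, sum_sl, sum3, h, h, h, nu_zero, nu_one, nu_two]

theorem card_sl {n : ℕ} (S : Finset (Fin (n + 1) → ZMod 3)) :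
    (S.card : ℝ) = (sl S 0).card + (sl S 1).card + (sl S 2).card := by
  have h := sum_sl S (fun _ => 1)
  simp only [Finset.sum_const, nsmul_eq_mul, mul_one] at h
  rw [h, sum3]

theorem dd_sub {n : ℕ} (A B : Finset (Fin (n + 1) → ZMod 3)) (a b : ZMod 3) :
    DD (sl A a) (sl B b) ⊆ sl (DD A B) (dd a b) := by
  intro t ht
  unfold DD at ht
  rw [Finset.mem_image₂] at ht
  obtain ⟨v, hv, w, hw, rfl⟩ := ht
  rw [mem_sl] at hv hw
  rw [mem_sl]
  unfold DD
  rw [Finset.mem_image₂]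
  refine ⟨_, hv, _, hw, ?_⟩
  funext j
  refine Fin.cases ?_ (fun i => ?_) j
  · simp
  · simp

theorem card_DD : ∀ (n : ℕ) (A B : Finset (Fin n → ZMod 3)),
    3 ^ n * (wt A * wt B) ≤ ((DD A B).card : ℝ)
  | 0, A, B => by
    by_cases hA0 : A = ∅
    · rw [hA0]; simp [wt]
    by_cases hB0 : B = ∅
    · rw [hB0]; simp [wt]
    have h1 : A.Nonempty := Finset.nonempty_iff_ne_empty.2 hA0
    have h2 : B.Nonempty := Finset.nonempty_iff_ne_empty.2 hB0
    have h3 : (DD A B).Nonempty := by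
      unfold DD
      exact Finset.Nonempty.image₂ h1 h2
    have h4 : (1 : ℝ) ≤ (DD A B).card := by exact_mod_cast Finset.card_pos.2 h3
    have h5 : ∀ S : Finset (Fin 0 → ZMod 3), wt S ≤ 1 := by
      intro S
      unfold wt
      simp only [Finset.univ_eq_empty, Finset.prod_empty, Finset.sum_const, nsmul_eq_mul, mul_one]
      have := Finset.card_le_univ S
      have h6 : Fintype.card (Fin 0 → ZMod 3) = 1 := by simp
      rw [h6] at this
      exact_mod_cast this
    calc 3 ^ 0 * (wt A * wt B) = wt A * wt B := by ring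
      _ ≤ 1 * 1 := mul_le_mul (h5 A) (h5 B) (wt_nonneg B) zero_le_one
      _ ≤ _ := by linarith
  | n + 1, A, B => by
    have ih := card_DD n
    have key : ∀ a b : ZMod 3, 3 ^ n * (wt (sl A a) * wt (sl B b)) ≤
        ((sl (DD A B) (dd a b)).card : ℝ) := fun a b =>
      (ih _ _).trans (by exact_mod_cast Finset.card_le_card (dd_sub A B a b))
    have d00 : dd 0 0 = 0 := by simp [dd]
    have d01 : dd 0 1 = 0 := by simp [dd]
    have d02 : dd 0 2 = 0 := by simp [dd]
    have d10 : dd 1 0 = 0 := by simp [dd]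
    have d20 : dd 2 0 = 0 := by simp [dd]
    have d11 : dd 1 1 = 0 := by simp [dd]
    have d22 : dd 2 2 = 0 := by simp [dd]
    have d12 : dd 1 2 = 1 := by
      have h1 : ¬ ((1 : ZMod 3) = 2 ∨ (1 : ZMod 3) = 0 ∨ (2 : ZMod 3) = 0) := by decide
      rw [dd, if_neg h1]
    have d21 : dd 2 1 = 2 := by
      have h1 : ¬ ((2 : ZMod 3) = 1 ∨ (2 : ZMod 3) = 0 ∨ (1 : ZMod 3) = 0) := by decide
      rw [dd, if_neg h1]
    have p3 : (0 : ℝ) < 3 ^ n := by positivity
    have k00 := key 0 0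
    have k01 := key 0 1
    have k02 := key 0 2
    have k10 := key 1 0
    have k20 := key 2 0
    have k11 := key 1 1
    have k22 := key 2 2
    have k12 := key 1 2
    have k21 := key 2 1
    rw [d00] at k00
    rw [d01] at k01
    rw [d02] at k02
    rw [d10] at k10
    rw [d20] at k20
    rw [d11] at k11
    rw [d22] at k22
    rw [d12] at k12
    rw [d21] at k21
    have M1 : ∀ x : ℝ, 3 ^ n * x ≤ ((sl (DD A B) 0).card : ℝ) →
        x ≤ ((sl (DD A B) 0).card : ℝ) / 3 ^ n := by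
      intro x hx
      rw [le_div_iff₀ p3]
      linarith
    have h := three _ _ _ _ _ _ (((sl (DD A B) 0).card : ℝ) / 3 ^ n)
      (wt_nonneg (sl A 0)) (wt_nonneg (sl A 1)) (wt_nonneg (sl A 2))
      (wt_nonneg (sl B 0)) (wt_nonneg (sl B 1)) (wt_nonneg (sl B 2))
      (M1 _ k00) (M1 _ k01) (M1 _ k02) (M1 _ k10) (M1 _ k20) (M1 _ k11) (M1 _ k22)
    rw [mul_assoc 3, ← wt_sl, ← wt_sl] at h
    rw [card_sl (DD A B)]
    have h' := mul_le_mul_of_nonneg_left h p3.le
    have e : 3 ^ n * (((sl (DD A B) 0).card : ℝ) / 3 ^ n) = (sl (DD A B) 0).card :=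
      mul_div_cancel₀ _ p3.ne'
    calc 3 ^ (n + 1) * (wt A * wt B) = 3 ^ n * (3 * (wt A * wt B)) := by ring
      _ ≤ 3 ^ n * (((sl (DD A B) 0).card : ℝ) / 3 ^ n + wt (sl A 1) * wt (sl B 2) +
          wt (sl A 2) * wt (sl B 1)) := h'
      _ = 3 ^ n * (((sl (DD A B) 0).card : ℝ) / 3 ^ n) + 3 ^ n * (wt (sl A 1) * wt (sl B 2)) +
          3 ^ n * (wt (sl A 2) * wt (sl B 1)) := by ring
      _ ≤ _ := by
        rw [e]
        linarith

end

end Pool.Agent.FFS
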