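import Pool.Agent.FFS.Three

/-!
# Volumes of projections of faces of the cube

`sw K v t` is the set swept by `K` along `[0, t] v`; its volume is an affine function of `t` if `K` is compact and convex. Hence the volume of
the projection of a box is affine in each edge length, and the mean volume of the projection of a random face is computed (`expand`).
-/

set_option autoImplicit false

open scoped BigOperators Classical
open MeasureTheory Module

namespace Pool.Agent.FFS

noncomputable section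

/-! ### sweeping -/

/-- the set swept by `K` along `[0, t] v` -/
def sw {k : ℕ} (K : Set (Fin k → ℝ)) (v : Fin k → ℝ) (t : ℝ) : Set (Fin k → ℝ) :=
  {w | ∃ s : ℝ, 0 ≤ s ∧ s ≤ t ∧ w - s • v ∈ K}

theorem sw_compact {k : ℕ} {K : Set (Fin k → ℝ)} (hK : IsCompact K) (v : Fin k → ℝ) (t : ℝ) :
    IsCompact (sw K v t) := by
  have h : sw K v t = (fun p : ℝ × (Fin k → ℝ) => p.2 + p.1 • v) '' (Set.Icc 0 t ×ˢ K) := by
    ext w
    constructor
    · rintro ⟨s, h0, h1, h2⟩
      exact ⟨(s, w - s • v), ⟨⟨h0, h1⟩, h2⟩, sub_add_cancel _ _⟩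
    · rintro ⟨⟨s, x⟩, ⟨⟨h0, h1⟩, h2⟩, rfl⟩
      refine ⟨s, h0, h1, ?_⟩
      show x + s • v - s • v ∈ K
      rw [add_sub_cancel_right]
      exact h2
  rw [h]
  refine (isCompact_Icc.prod hK).image ?_
  fun_prop

theorem sw_diff {k : ℕ} {K : Set (Fin k → ℝ)} (hK : Convex ℝ K) (v : Fin k → ℝ) {a b : ℝ}
    (ha : 0 ≤ a) :
    sw K v (a + b) \ sw K v a = (fun w => w + -(a • v)) ⁻¹' (sw K v b \ K) := by
  ext w
  constructor
  · rintro ⟨⟨s, h0, h1, h2⟩, h3⟩
    have h4 : a < s := by
      by_contra h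
      exact h3 ⟨s, h0, not_lt.1 h, h2⟩
    refine ⟨⟨s - a, by linarith, by linarith, ?_⟩, ?_⟩
    · show w + -(a • v) - (s - a) • v ∈ K
      have : w + -(a • v) - (s - a) • v = w - s • v := by
        rw [sub_smul]
        abel
      rw [this]
      exact h2
    · intro h5
      refine h3 ⟨a, ha, le_refl _, ?_⟩
      rw [sub_eq_add_neg]
      exact h5
  · rintro ⟨⟨s, h0, h1, h2⟩, h3⟩
    have h2' : w - (a + s) • v ∈ K := by
      have : w - (a + s) • v = w + -(a • v) - s • v := by
        rw [add_smul]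
        abel
      rw [this]
      exact h2
    refine ⟨⟨a + s, by linarith, by linarith, h2'⟩, ?_⟩
    rintro ⟨r, r0, r1, r2⟩
    apply h3
    show w + -(a • v) ∈ K
    rcases eq_or_lt_of_le (show r ≤ a + s by linarith) with h | h
    · have hs : s = 0 := by linarith
      have : w + -(a • v) = w - (a + s) • v := by
        rw [hs, add_zero, sub_eq_add_neg]
      rw [this]
      exact h2'
    · have hpos : 0 < a + s - r := by linarith
      have h5 : w + -(a • v) = (s / (a + s - r)) • (w - r • v) +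
          ((a - r) / (a + s - r)) • (w - (a + s) • v) := by
        have e1 : s / (a + s - r) + (a - r) / (a + s - r) = 1 := by
          field_simp
          ring
        have e2 : s / (a + s - r) * r + (a - r) / (a + s - r) * (a + s) = a := by
          field_simp
          ring
        funext j
        simp only [Pi.add_apply, Pi.smul_apply, Pi.sub_apply, smul_eq_mul, Pi.neg_apply]
        have e3 : s / (a + s - r) * (w j - r * v j) + (a - r) / (a + s - r) * (w j - (a + s) * v j)
            = (s / (a + s - r) + (a - r) / (a + s - r)) * w j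
              - (s / (a + s - r) * r + (a - r) / (a + s - r) * (a + s)) * v j := by ring
        rw [e3, e1, e2]
        ring
      rw [h5]
      refine hK r2 h2' (div_nonneg h0 hpos.le) (div_nonneg (by linarith) hpos.le) ?_
      rw [← add_div, div_eq_one_iff_eq hpos.ne']
      ring

/-- the volume of the swept set -/
def vs {k : ℕ} (K : Set (Fin k → ℝ)) (v : Fin k → ℝ) (t : ℝ) : ℝ := (volume (sw K v t)).toReal

theorem sw_zero {k : ℕ} (K : Set (Fin k → ℝ)) (v : Fin k → ℝ) : sw K v 0 = K := by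
  ext w
  constructor
  · rintro ⟨s, h0, h1, h2⟩
    have : s = 0 := le_antisymm h1 h0
    rw [this, zero_smul, sub_zero] at h2
    exact h2
  · intro h
    exact ⟨0, le_refl _, le_refl _, by rw [zero_smul, sub_zero]; exact h⟩

theorem sw_sub {k : ℕ} (K : Set (Fin k → ℝ)) (v : Fin k → ℝ) {a b : ℝ} (h : a ≤ b) :
    sw K v a ⊆ sw K v b := fun _ ⟨s, h0, h1, h2⟩ => ⟨s, h0, h1.trans h, h2⟩

theorem vs_add {k : ℕ} {K : Set (Fin k → ℝ)} (hc : IsCompact K) (hK : Convex ℝ K)
    (v : Fin k → ℝ) {a b : ℝ} (ha : 0 ≤ a) (hb : 0 ≤ b) :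
    vs K v (a + b) + vs K v 0 = vs K v a + vs K v b := by
  have fin : ∀ t, volume (sw K v t) ≠ ⊤ := fun t => (sw_compact hc v t).measure_lt_top.ne
  have m : ∀ t, MeasurableSet (sw K v t) := fun t => (sw_compact hc v t).measurableSet
  have h1 := measure_sdiff_add_inter (μ := volume) (sw K v (a + b)) (m a)
  rw [Set.inter_eq_self_of_subset_right (sw_sub K v (by linarith)), sw_diff hK v ha,
    measure_preimage_add_right] at h1
  have h2 := measure_sdiff_add_inter (μ := volume) (sw K v b) (m 0)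
  rw [Set.inter_eq_self_of_subset_right (sw_sub K v hb), sw_zero] at h2
  have h3 : volume (sw K v b \ K) ≠ ⊤ := by
    intro h
    rw [h, top_add] at h2
    exact fin b h2.symm
  unfold vs
  rw [← h1, ← h2, sw_zero, ENNReal.toReal_add h3 (fin a), ENNReal.toReal_add h3]
  · ring
  · have := fin 0
    rw [sw_zero] at this
    exact this

theorem vs_nat {k : ℕ} {K : Set (Fin k → ℝ)} (hc : IsCompact K) (hK : Convex ℝ K)
    (v : Fin k → ℝ) {h : ℝ} (hh : 0 ≤ h) (j : ℕ) :
    vs K v (j * h) = vs K v 0 + j * (vs K v h - vs K v 0) := by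
  induction j with
  | zero => simp
  | succ j ih =>
    have h1 := vs_add hc hK v (a := j * h) (b := h) (by positivity) hh
    have h2 : ((j + 1 : ℕ) : ℝ) * h = j * h + h := by push_cast; ring
    rw [h2]
    push_cast
    rw [ih] at h1
    linarith

theorem vs_aff {k : ℕ} {K : Set (Fin k → ℝ)} (hc : IsCompact K) (hK : Convex ℝ K)
    (v : Fin k → ℝ) : vs K v (2 * (17 / 110)) = 17 / 110 * vs K v 2 + 93 / 110 * vs K v 0 := by
  have h1 := vs_nat hc hK v (h := 1 / 55) (by norm_num) 17
  have h2 := vs_nat hc hK v (h := 1 / 55) (by norm_num) 110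
  have e1 : ((17 : ℕ) : ℝ) * (1 / 55) = 2 * (17 / 110) := by norm_num
  have e2 : ((110 : ℕ) : ℝ) * (1 / 55) = 2 := by norm_num
  rw [e1] at h1
  rw [e2] at h2
  push_cast at h1 h2
  linarith

/-! ### projections of boxes -/

/-- multiplication of the coordinates by `r` -/
def Dm {n : ℕ} (r : Fin n → ℝ) : (Fin n → ℝ) →ₗ[ℝ] (Fin n → ℝ) :=
  LinearMap.pi fun i => r i • LinearMap.proj i

theorem Dm_apply {n : ℕ} (r z : Fin n → ℝ) (i : Fin n) : Dm r z i = r i * z i := rfl

/-- the closed cube -/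
def Cb (n : ℕ) : Set (Fin n → ℝ) := Set.pi Set.univ (fun _ => Set.Icc (-1 : ℝ) 1)

theorem mem_Cb {n : ℕ} {z : Fin n → ℝ} : z ∈ Cb n ↔ ∀ i, |z i| ≤ 1 := by
  unfold Cb
  rw [Set.mem_univ_pi]
  exact forall_congr' (fun i => by rw [Set.mem_Icc, abs_le])

/-- the projection of a box -/
def Zb {n k : ℕ} (π : (Fin n → ℝ) →ₗ[ℝ] (Fin k → ℝ)) (r : Fin n → ℝ) : Set (Fin k → ℝ) :=
  (π ∘ₗ Dm r) '' Cb n

theorem mem_Zb {n k : ℕ} {π : (Fin n → ℝ) →ₗ[ℝ] (Fin k → ℝ)} {r : Fin n → ℝ} {w : Fin k → ℝ} :
    w ∈ Zb π r ↔ ∃ z : Fin n → ℝ, (∀ i, |z i| ≤ 1) ∧ π (Dm r z) = w := by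
  constructor
  · rintro ⟨z, hz, rfl⟩
    exact ⟨z, mem_Cb.1 hz, rfl⟩
  · rintro ⟨z, hz, rfl⟩
    exact ⟨z, mem_Cb.2 hz, rfl⟩

theorem Zb_compact {n k : ℕ} (π : (Fin n → ℝ) →ₗ[ℝ] (Fin k → ℝ)) (r : Fin n → ℝ) :
    IsCompact (Zb π r) :=
  (isCompact_univ_pi (fun _ => isCompact_Icc)).image (π ∘ₗ Dm r).continuous_of_finiteDimensional

theorem Zb_convex {n k : ℕ} (π : (Fin n → ℝ) →ₗ[ℝ] (Fin k → ℝ)) (r : Fin n → ℝ) :
    Convex ℝ (Zb π r) :=
  (convex_pi (fun _ _ => convex_Icc _ _)).linear_image (π ∘ₗ Dm r)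

theorem Dm_update {n : ℕ} (r z : Fin n → ℝ) (i : Fin n) (t : ℝ) :
    Dm (Function.update r i t) z = Dm (Function.update r i 0) z + (t * z i) • Pi.single i (1 : ℝ) := by
  funext j
  rw [Pi.add_apply, Dm_apply, Dm_apply, Pi.smul_apply, smul_eq_mul]
  by_cases h : j = i
  · subst h
    simp
  · rw [Function.update_of_ne h, Function.update_of_ne h, Pi.single_eq_of_ne h, mul_zero, add_zero]

theorem mem_Zb_update {n k : ℕ} (π : (Fin n → ℝ) →ₗ[ℝ] (Fin k → ℝ)) (r : Fin n → ℝ) (i : Fin n)
    {t : ℝ} (ht : 0 ≤ t) (w : Fin k → ℝ) : w ∈ Zb π (Function.update r i t) ↔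
      ∃ s : ℝ, |s| ≤ t ∧ w - s • π (Pi.single i 1) ∈ Zb π (Function.update r i 0) := by
  constructor
  · intro h
    obtain ⟨z, hz, rfl⟩ := mem_Zb.1 h
    refine ⟨t * z i, ?_, mem_Zb.2 ⟨z, hz, ?_⟩⟩
    · rw [abs_mul, abs_of_nonneg ht]
      have := mul_le_mul_of_nonneg_left (hz i) ht
      linarith
    · rw [Dm_update r z i t, map_add, map_smul]
      abel
  · rintro ⟨s, hs, h⟩
    obtain ⟨z, hz, hw⟩ := mem_Zb.1 h
    rcases eq_or_lt_of_le ht with h0 | h0
    · have s0 : s = 0 := by
        rw [← h0] at hs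
        exact abs_eq_zero.1 (le_antisymm hs (abs_nonneg _))
      rw [s0, zero_smul, sub_zero] at h
      rw [← h0]
      exact h
    · refine mem_Zb.2 ⟨Function.update z i (s / t), ?_, ?_⟩
      · intro j
        by_cases hj : j = i
        · subst hj
          rw [Function.update_self, abs_div, abs_of_pos h0, div_le_one h0]
          exact hs
        · rw [Function.update_of_ne hj]
          exact hz j
      · rw [Dm_update, Function.update_self, mul_div_cancel₀ _ h0.ne', map_add, map_smul]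
        have e : Dm (Function.update r i 0) (Function.update z i (s / t)) =
            Dm (Function.update r i 0) z := by
          funext j
          rw [Dm_apply, Dm_apply]
          by_cases hj : j = i
          · subst hj
            simp
          · rw [Function.update_of_ne hj, Function.update_of_ne hj]
        rw [e, hw]
        abel

/-- the volume of the projection of a box -/
def Vb {n k : ℕ} (π : (Fin n → ℝ) →ₗ[ℝ] (Fin k → ℝ)) (r : Fin n → ℝ) : ℝ :=
  (volume (Zb π r)).toReal

theorem Vb_update {n k : ℕ} (π : (Fin n → ℝ) →ₗ[ℝ] (Fin k → ℝ)) (r : Fin n → ℝ) (i : Fin n)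
    {t : ℝ} (ht : 0 ≤ t) : Vb π (Function.update r i t) =
      vs (Zb π (Function.update r i 0)) (π (Pi.single i 1)) (2 * t) := by
  have h : sw (Zb π (Function.update r i 0)) (π (Pi.single i 1)) (2 * t) =
      (fun w => w + -(t • π (Pi.single i 1))) ⁻¹' Zb π (Function.update r i t) := by
    ext w
    rw [Set.mem_preimage, mem_Zb_update π r i ht]
    constructor
    · rintro ⟨s, h0, h1, h2⟩
      refine ⟨s - t, abs_le.2 ⟨by linarith, by linarith⟩, ?_⟩
      have : w + -(t • π (Pi.single i 1)) - (s - t) • π (Pi.single i 1) =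
          w - s • π (Pi.single i 1) := by
        rw [sub_smul]
        abel
      rw [this]
      exact h2
    · rintro ⟨s, h1, h2⟩
      have h3 := abs_le.1 h1
      refine ⟨s + t, by linarith, by linarith, ?_⟩
      have : w + -(t • π (Pi.single i 1)) - s • π (Pi.single i 1) =
          w - (s + t) • π (Pi.single i 1) := by
        rw [add_smul]
        abel
      rw [← this]
      exact h2
  unfold Vb vs
  rw [h, measure_preimage_add_right]

theorem Vb_aff {n k : ℕ} (π : (Fin n → ℝ) →ₗ[ℝ] (Fin k → ℝ)) (r : Fin n → ℝ) (i : Fin n) :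
    Vb π (Function.update r i (17 / 110)) =
      17 / 110 * Vb π (Function.update r i 1) + 93 / 110 * Vb π (Function.update r i 0) := by
  have h := vs_aff (Zb_compact π (Function.update r i 0)) (Zb_convex π (Function.update r i 0))
    (π (Pi.single i 1))
  rw [Vb_update π r i (by norm_num : (0 : ℝ) ≤ 17 / 110), h,
    Vb_update π r i (by norm_num : (0 : ℝ) ≤ 1), Vb_update π r i (le_refl (0 : ℝ)), mul_one, mul_zero]

/-- the indicator of `0` -/
def zf (c : ZMod 3) : ℝ := if c = 0 then 1 else 0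

theorem zf_zero : zf 0 = 1 := by simp [zf]

theorem zf_ne {c : ZMod 3} (h : c ≠ 0) : zf c = 0 := if_neg h

theorem expand : ∀ (n : ℕ) (F : (Fin n → ℝ) → ℝ),
    (∀ (r : Fin n → ℝ) (i : Fin n), F (Function.update r i (17 / 110)) =
      17 / 110 * F (Function.update r i 1) + 93 / 110 * F (Function.update r i 0)) →
    ∑ g : Fin n → ZMod 3, (∏ i, nu (g i)) * F (fun i => zf (g i)) = F (fun _ => 17 / 110)
  | 0, F, _ => by
    rw [Fintype.sum_unique]
    simp only [Finset.univ_eq_empty, Finset.prod_empty, one_mul]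
    exact congrArg F (funext fun i => i.elim0)
  | n + 1, F, hF => by
    have hc : ∀ (x : ℝ) (r : Fin n → ℝ) (i : Fin n),
        F (Fin.cons x (Function.update r i (17 / 110)) : Fin (n + 1) → ℝ) =
          17 / 110 * F (Fin.cons x (Function.update r i 1) : Fin (n + 1) → ℝ) +
          93 / 110 * F (Fin.cons x (Function.update r i 0) : Fin (n + 1) → ℝ) := by
      intro x r i
      have h := hF (Fin.cons x r : Fin (n + 1) → ℝ) i.succ
      rw [Fin.cons_update, Fin.cons_update, Fin.cons_update]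
      exact h
    have ih := fun x : ℝ => expand n (fun r => F (Fin.cons x r : Fin (n + 1) → ℝ)) (hc x)
    have h1 : ∀ c : ZMod 3, ∑ t : Fin n → ZMod 3, (∏ i, nu ((Fin.cons c t : Fin (n + 1) → ZMod 3) i)) *
        F (fun i => zf ((Fin.cons c t : Fin (n + 1) → ZMod 3) i)) =
        nu c * F (Fin.cons (zf c) (fun _ => 17 / 110) : Fin (n + 1) → ℝ) := by
      intro c
      rw [← ih (zf c), Finset.mul_sum]
      refine Finset.sum_congr rfl fun t _ => ?_
      rw [Fin.prod_univ_succ]
      simp only [Fin.cons_zero, Fin.cons_succ]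
      rw [mul_assoc]
      have e : (fun i => zf ((Fin.cons c t : Fin (n + 1) → ZMod 3) i)) =
          (Fin.cons (zf c) (fun i => zf (t i)) : Fin (n + 1) → ℝ) := by
        funext j
        refine Fin.cases ?_ (fun i => ?_) j
        · simp
        · simp
      rw [e]
    have hu : ∀ c : ZMod 3, sl (Finset.univ : Finset (Fin (n + 1) → ZMod 3)) c = Finset.univ := by
      intro c
      ext t
      rw [mem_sl]
      simp
    have h2 : ∑ g : Fin (n + 1) → ZMod 3, (∏ i, nu (g i)) * F (fun i => zf (g i)) =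
        ∑ c : ZMod 3, nu c * F (Fin.cons (zf c) (fun _ => 17 / 110) : Fin (n + 1) → ℝ) := by
      rw [sum_sl]
      refine Finset.sum_congr rfl fun c _ => ?_
      rw [hu, h1]
    have z2 : zf 2 = 0 := zf_ne (by decide)
    have z1 : zf 1 = 0 := zf_ne (by decide)
    rw [h2, sum3, nu_zero, nu_one, nu_two, zf_zero, z1, z2]
    have h3 := hF (Fin.cons 0 (fun _ => 17 / 110) : Fin (n + 1) → ℝ) 0
    rw [Fin.update_cons_zero, Fin.update_cons_zero, Fin.update_cons_zero] at h3
    have e : (Fin.cons (17 / 110) (fun _ => 17 / 110) : Fin (n + 1) → ℝ) = fun _ => 17 / 110 := by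
      funext j
      refine Fin.cases ?_ (fun i => ?_) j
      · simp
      · simp
    rw [e] at h3
    rw [h3]
    ring

end

end Pool.Agent.FFS
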